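import Pool.Agent.Q289.MeanSplit.Main

/-!
# Mean-split quantization can be exponentially slower than `2 ^ (-n)`, whatever moment is finite

The definitions are in `Q289.MeanSplit.Defs`: `T n μ` is the measure `T(μ, n)` of the mean-split
algorithm and `W1` the Wasserstein distance of order one. The example is a mixture of uniform
distributions on the intervals `σ ^ k * [1 - δ, 1 + δ]` with geometric weights `(1 - p) * p ^ k`,
for which the mean lies between the first two intervals.
-/

set_option autoImplicit false

open MeasureTheory Filter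
open scoped ENNReal

namespace Pool.Agent.Results.MP_a33f4b_pr.SlowerThanHalf

open Q289.MeanSplit

/-- for every `q` there is an absolutely continuous probability measure `μ` with finite absolute
moment of order `q` for which `W1 (T n μ) μ` is at least `c * ρ ^ n` for all `n`, with `ρ > 1 / 2`
and `c > 0`, so that the limsup of `(1 / n) * log (W1 (T n μ) μ)` is larger than `- log 2` -/
theorem result (q : ℕ) : ∃ μ : Measure ℝ, IsProbabilityMeasure μ ∧ μ ≪ volume ∧
    Integrable (fun x => |x| ^ q) μ ∧
    (∃ ρ c : ℝ, 1 / 2 < ρ ∧ 0 < c ∧ ∀ n : ℕ, ENNReal.ofReal (c * ρ ^ n) ≤ W1 (T n μ) μ) ∧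
    ((-Real.log 2 : ℝ) : EReal) <
      limsup (fun n : ℕ => (W1 (T n μ) μ).log / (n : EReal)) atTop := by
  obtain ⟨μ, h1, h2, h3, ρ, c, h4, h5, h6⟩ := main q
  exact ⟨μ, h1, h2, h3, ⟨ρ, c, h4, h5, h6⟩, rate _ ρ c h4 h5 h6⟩

end Pool.Agent.Results.MP_a33f4b_pr.SlowerThanHalf
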